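import Pool.Agent.Q231.GP.Main

/-!
# Monochromatic convex polygons in coloured point sets: a polynomial exponent

`GeneralPosition P`, `P : Fin n → ℝ × ℝ`: the `n` points are distinct and no three are collinear.
`Arrow k p n`: for all `n` points in general position in the plane and all colourings of the pairs
with `k` colours, some `p` of the points are in convex position and all pairs of them have the
same colour. `g k p` is the least such `n`; the function of the problem is `g 2 p`.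
-/

namespace Pool.Agent.Results.MP_6c3374_co.PolynomialExponent

open Pool.Agent.Q231.GP

/-- The least `n` such that all `n` points in general position with all `k`-colourings of the
pairs contain a monochromatic convex `p`-gon. -/
noncomputable def g (k p : ℕ) : ℕ := sInf {n | Arrow k p n}

lemma arrow_mono {k p n n' : ℕ} (h : n ≤ n') (ha : Arrow k p n) : Arrow k p n' := by
  classical
  intro P hP c
  set e : Fin n ↪ Fin n' := Fin.castLEEmb h with he
  obtain ⟨A, hA, hconv, i, hi⟩ := ha (P ∘ e)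
    ⟨hP.1.comp e.injective, fun a b d hab hbd had => hP.2 _ _ _ (fun h => hab (e.injective h))
      (fun h => hbd (e.injective h)) (fun h => had (e.injective h))⟩
    (fun s => c (s.map e))
  refine ⟨A.map e, by rw [Finset.card_map, hA], ?_, i, ?_⟩
  · have hex : ∀ b : {x // x ∈ A.map e}, ∃ a : {x // x ∈ A}, e a = b := by
      rintro ⟨b, hb⟩
      obtain ⟨a, ha, rfl⟩ := Finset.mem_map.1 hb
      exact ⟨⟨a, ha⟩, rfl⟩
    choose q hq using hex
    have hqinj : Function.Injective q := by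
      intro x y hxy
      apply Subtype.ext
      rw [← hq x, ← hq y, hxy]
    have h2 := hconv.comp_embedding ⟨q, hqinj⟩
    have h3 : (fun b : {x // x ∈ A.map e} => P b) =
        (fun a : {x // x ∈ A} => (P ∘ e) a) ∘ (⟨q, hqinj⟩ : {x // x ∈ A.map e} ↪ {x // x ∈ A}) := by
      funext b
      simp only [Function.comp, Function.Embedding.coeFn_mk]
      rw [hq b]
    rw [h3]
    exact h2
  · intro a ha b hb hab
    obtain ⟨a', ha', rfl⟩ := Finset.mem_map.1 ha
    obtain ⟨b', hb', rfl⟩ := Finset.mem_map.1 hb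
    have := hi a' ha' b' hb' (fun h => hab (by rw [h]))
    simpa using this

lemma nat_bound (k p : ℕ) (hk : 1 ≤ k) (hp : 3 ≤ p) :
    (k * (k * (p - 2) ^ 2 + 1)) ^ (k * (p - 2) ^ 2 + 1) ≤ (k * p) ^ (2 * k * p ^ 2) := by
  have h1 : k * (p - 2) ^ 2 + 1 ≤ k * p ^ 2 := by
    obtain ⟨q, rfl⟩ : ∃ q, p = q + 2 := ⟨p - 2, by omega⟩
    have : q + 2 - 2 = q := by omega
    rw [this]
    nlinarith [Nat.zero_le q, Nat.zero_le (k * q)]
  have hkp : 1 ≤ k * p := Nat.mul_pos hk (by omega)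
  calc (k * (k * (p - 2) ^ 2 + 1)) ^ (k * (p - 2) ^ 2 + 1)
      ≤ (k * (k * p ^ 2)) ^ (k * (p - 2) ^ 2 + 1) :=
        Nat.pow_le_pow_left (Nat.mul_le_mul_left k h1) _
    _ = ((k * p) ^ 2) ^ (k * (p - 2) ^ 2 + 1) := by congr 1; ring
    _ ≤ ((k * p) ^ 2) ^ (k * p ^ 2) := Nat.pow_le_pow_right (Nat.pow_pos hkp) h1
    _ = (k * p) ^ (2 * k * p ^ 2) := by rw [← pow_mul]; congr 1; ring

theorem result (k p : ℕ) (hk : 1 ≤ k) (hp : 3 ≤ p) :
    (∀ n, Arrow k p n ↔ g k p ≤ n) ∧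
    g k p ≤ (k * (k * (p - 2) ^ 2 + 1)) ^ (k * (p - 2) ^ 2 + 1) ∧
    g k p ≤ (k * p) ^ (2 * k * p ^ 2) ∧
    Real.logb 2 (g 2 p) ≤ 8 * (p : ℝ) ^ 2 * Real.logb 2 p := by
  have key : ∀ k, 1 ≤ k → (∀ n, Arrow k p n ↔ g k p ≤ n) ∧
      g k p ≤ (k * (k * (p - 2) ^ 2 + 1)) ^ (k * (p - 2) ^ 2 + 1) := by
    intro k hk
    have h0 : Arrow k p ((k * (k * (p - 2) ^ 2 + 1)) ^ (k * (p - 2) ^ 2 + 1)) :=
      arrow_of_pow_le k p _ hk hp le_rfl
    have hne : {n | Arrow k p n}.Nonempty := ⟨_, h0⟩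
    refine ⟨fun n => ⟨fun h => Nat.sInf_le h, fun h => arrow_mono h (Nat.sInf_mem hne)⟩,
      Nat.sInf_le h0⟩
  refine ⟨(key k hk).1, (key k hk).2, (key k hk).2.trans (nat_bound k p hk hp), ?_⟩
  have h2 : g 2 p ≤ (2 * p) ^ (2 * 2 * p ^ 2) :=
    (key 2 (by norm_num)).2.trans (nat_bound 2 p (by norm_num) hp)
  have hpR : (3 : ℝ) ≤ p := by exact_mod_cast hp
  have hlog1 : 1 ≤ Real.logb 2 p := by
    rw [Real.le_logb_iff_rpow_le (by norm_num) (by linarith)]
    simp only [Real.rpow_one]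
    linarith
  rcases Nat.eq_zero_or_pos (g 2 p) with h0 | h0
  · rw [h0]
    simp only [Nat.cast_zero, Real.logb_zero]
    positivity
  · have h3 : (g 2 p : ℝ) ≤ (2 * (p : ℝ)) ^ (4 * p ^ 2) := by
      exact_mod_cast h2
    have h4 : Real.logb 2 (g 2 p) ≤ Real.logb 2 ((2 * (p : ℝ)) ^ (4 * p ^ 2)) :=
      Real.logb_le_logb_of_le (by norm_num) (by exact_mod_cast h0) h3
    have h5 : Real.logb 2 ((2 * (p : ℝ)) ^ (4 * p ^ 2)) =
        4 * (p : ℝ) ^ 2 * (1 + Real.logb 2 p) := by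
      rw [Real.logb_pow, Real.logb_mul (by norm_num) (by linarith), Real.logb_self_eq_one
        (by norm_num)]
      push_cast
      ring
    rw [h5] at h4
    have h6 : 4 * (p : ℝ) ^ 2 * (1 + Real.logb 2 p) ≤ 8 * (p : ℝ) ^ 2 * Real.logb 2 p := by
      nlinarith [sq_nonneg (p : ℝ), mul_nonneg (sq_nonneg (p : ℝ)) (sub_nonneg.2 hlog1)]
    exact h4.trans h6

end Pool.Agent.Results.MP_6c3374_co.PolynomialExponent
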